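import Mathlib

/-!
Abstract construction: a topological group `Γ` with subgroups `H₁`, `M`, `N` satisfying a list of
conditions yields a group `G ≤ Γ × Γ` with the wanted closed subgroups.
-/

set_option autoImplicit false

namespace Pool.Agent.Lib.MP_fae9ec_al

open Topology

variable {Γ : Type*} [Group Γ] [TopologicalSpace Γ] [IsTopologicalGroup Γ] [T2Space Γ]

/-- The group `{(m h, n h)}`. -/
def bigG (H₁ M N : Subgroup Γ)
    (hM : ∀ h ∈ H₁, ∀ m ∈ M, h * m * h⁻¹ ∈ M)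
    (hN : ∀ h ∈ H₁, ∀ n ∈ N, h * n * h⁻¹ ∈ N) : Subgroup (Γ × Γ) where
  carrier := {p | ∃ m ∈ M, ∃ n ∈ N, ∃ h ∈ H₁, p = (m * h, n * h)}
  mul_mem' := by
    rintro _ _ ⟨m, hm, n, hn, h, hh, rfl⟩ ⟨m', hm', n', hn', h', hh', rfl⟩
    refine ⟨m * (h * m' * h⁻¹), M.mul_mem hm (hM h hh m' hm'),
      n * (h * n' * h⁻¹), N.mul_mem hn (hN h hh n' hn'), h * h', H₁.mul_mem hh hh', ?_⟩
    ext <;> simp [mul_assoc]
  one_mem' := ⟨1, M.one_mem, 1, N.one_mem, 1, H₁.one_mem, by ext <;> simp⟩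
  inv_mem' := by
    rintro _ ⟨m, hm, n, hn, h, hh, rfl⟩
    refine ⟨h⁻¹ * m⁻¹ * h, ?_, h⁻¹ * n⁻¹ * h, ?_, h⁻¹, H₁.inv_mem hh, ?_⟩
    · simpa using hM h⁻¹ (H₁.inv_mem hh) m⁻¹ (M.inv_mem hm)
    · simpa using hN h⁻¹ (H₁.inv_mem hh) n⁻¹ (N.inv_mem hn)
    · ext <;> simp

theorem abstract_example (H₁ M N : Subgroup Γ)
    (hM : ∀ h ∈ H₁, ∀ m ∈ M, h * m * h⁻¹ ∈ M)
    (hN : ∀ h ∈ H₁, ∀ n ∈ N, h * n * h⁻¹ ∈ N)
    (hc : ∀ x ∈ M ⊔ N, ∀ y ∈ M ⊔ N, x * y = y * x)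
    (hMN : M ⊓ N = ⊥) (hHW : H₁ ⊓ (M ⊔ N) = ⊥)
    (hM0 : M ≠ ⊥) (hN0 : N ≠ ⊥)
    (hf : ∀ h ∈ H₁, (∀ m ∈ M, h * m = m * h) → h = 1)
    (hA : ((M ⊔ N : Subgroup Γ) : Set Γ) ⊆ closure (H₁ : Set Γ))
    (hB : ∀ D : Subgroup Γ, D ≤ M ⊔ N → D ≠ ⊥ → (∀ h ∈ H₁, ∀ d ∈ D, h * d * h⁻¹ ∈ D) →
      ((M ⊔ N : Subgroup Γ) : Set Γ) ⊆ closure (D : Set Γ)) :
    ∃ (H M' N' : Subgroup (bigG H₁ M N hM hN)),
      (IsClosed (H : Set (bigG H₁ M N hM hN)) ∧ H ≠ ⊤ ∧
        ∀ L : Subgroup (bigG H₁ M N hM hN), IsClosed (L : Set (bigG H₁ M N hM hN)) →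
          H < L → L = ⊤) ∧
      (⋂ g : bigG H₁ M N hM hN, {x | ∃ h ∈ H, x = g * h * g⁻¹}) = {1} ∧
      (IsClosed (M' : Set (bigG H₁ M N hM hN)) ∧ M'.Normal ∧ M' ≠ ⊥ ∧
        (∀ L : Subgroup (bigG H₁ M N hM hN), IsClosed (L : Set (bigG H₁ M N hM hN)) →
          L.Normal → L ≠ ⊥ → L ≤ M' → L = M') ∧
        ∀ x ∈ M', ∀ y ∈ M', x * y = y * x) ∧
      (IsClosed (N' : Set (bigG H₁ M N hM hN)) ∧ N'.Normal ∧ N' ≠ ⊥ ∧ M' ⊓ N' = ⊥) := by
  set G := bigG H₁ M N hM hN with hG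
  -- the two projections
  let f : G →* Γ := (MonoidHom.fst Γ Γ).comp G.subtype
  let s : G →* Γ := (MonoidHom.snd Γ Γ).comp G.subtype
  have hfc : Continuous f := continuous_fst.comp continuous_subtype_val
  have hsc : Continuous s := continuous_snd.comp continuous_subtype_val
  have memG : ∀ {m n h : Γ}, m ∈ M → n ∈ N → h ∈ H₁ → (m * h, n * h) ∈ G :=
    fun {m n h} hm hn hh => ⟨m, hm, n, hn, h, hh, rfl⟩
  have hleM : M ≤ M ⊔ N := le_sup_left
  have hleN : N ≤ M ⊔ N := le_sup_right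
  have hHW' : ∀ x, x ∈ H₁ → x ∈ M ⊔ N → x = 1 := fun x h1 h2 => by
    have : x ∈ H₁ ⊓ (M ⊔ N) := ⟨h1, h2⟩
    rwa [hHW, Subgroup.mem_bot] at this
  have hMN' : ∀ x, x ∈ M → x ∈ N → x = 1 := fun x h1 h2 => by
    have : x ∈ M ⊓ N := ⟨h1, h2⟩
    rwa [hMN, Subgroup.mem_bot] at this
  have hmem1 : ∀ {m : Γ}, m ∈ M → (m, (1 : Γ)) ∈ G := fun {m} hm => by
    simpa using memG hm N.one_mem H₁.one_mem
  have hmem2 : ∀ {n : Γ}, n ∈ N → ((1 : Γ), n) ∈ G := fun {n} hn => by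
    simpa using memG M.one_mem hn H₁.one_mem
  have hmem3 : ∀ {h : Γ}, h ∈ H₁ → (h, h) ∈ G := fun {h} hh => by
    simpa using memG M.one_mem N.one_mem hh
  -- elements with trivial second coordinate
  have hker : ∀ p ∈ G, p.2 = 1 → p.1 ∈ M := by
    rintro _ ⟨m, hm, n, hn, h, hh, rfl⟩ h2
    have h2' : n * h = 1 := h2
    have h3 : h = n⁻¹ := (inv_eq_of_mul_eq_one_right h2').symm
    have h4 : h = 1 := hHW' h hh (hleN (h3 ▸ N.inv_mem hn))
    simpa [h4] using hm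
  have hWinv : ∀ h ∈ H₁, ∀ w ∈ M ⊔ N, h * w * h⁻¹ ∈ M ⊔ N := by
    intro h hh w hw
    have : (M ⊔ N).map (MulAut.conj h).toMonoidHom ≤ M ⊔ N := by
      rw [Subgroup.map_sup]
      refine sup_le_sup ?_ ?_
      · rintro _ ⟨m, hm, rfl⟩
        exact hM h hh m hm
      · rintro _ ⟨m, hm, rfl⟩
        exact hN h hh m hm
    exact this ⟨w, hw, rfl⟩
  obtain ⟨⟨m₀, hm₀⟩, hm₀1'⟩ := Subgroup.ne_bot_iff_exists_ne_one.1 hM0
  have hm₀1 : m₀ ≠ 1 := fun h => hm₀1' (Subtype.ext h)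
  obtain ⟨⟨n₀, hn₀⟩, hn₀1'⟩ := Subgroup.ne_bot_iff_exists_ne_one.1 hN0
  have hn₀1 : n₀ ≠ 1 := fun h => hn₀1' (Subtype.ext h)
  refine ⟨MonoidHom.eqLocus f s, s.ker, f.ker, ⟨?_, ?_, ?_⟩, ?_, ⟨?_, ?_, ?_, ?_, ?_⟩,
    ?_, ?_, ?_, ?_⟩
  · exact isClosed_eq hfc hsc
  · intro h
    have : (⟨(m₀, 1), hmem1 hm₀⟩ : G) ∈ MonoidHom.eqLocus f s := by rw [h]; trivial
    exact hm₀1 this
  · -- maximality
    intro L hL hlt
    have hle := hlt.le
    obtain ⟨g, hgL, hgH⟩ := Set.exists_of_ssubset hlt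
    -- closure of L in Γ × Γ
    let Lc : Subgroup (Γ × Γ) := (L.map G.subtype).topologicalClosure
    have hLc : IsClosed (Lc : Set (Γ × Γ)) := Subgroup.isClosed_topologicalClosure _
    have hsub : ∀ x ∈ L, (x : Γ × Γ) ∈ Lc := fun x hx =>
      Subgroup.le_topologicalClosure _ ⟨x, hx, rfl⟩
    have hdiag : ∀ h ∈ H₁, (h, h) ∈ Lc := fun h hh => by
      have : (⟨(h, h), hmem3 hh⟩ : G) ∈ L := hle (show f _ = s _ from rfl)
      exact hsub _ this
    have hdiagW : ∀ w ∈ M ⊔ N, (w, w) ∈ Lc := by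
      intro w hw
      have h1 : w ∈ closure (H₁ : Set Γ) := hA hw
      have h2 : closure (H₁ : Set Γ) ⊆ (fun x : Γ => (x, x)) ⁻¹' (Lc : Set (Γ × Γ)) := by
        refine closure_minimal (fun h hh => hdiag h hh) (hLc.preimage (by fun_prop))
      exact h2 h1
    -- the element (m n⁻¹, 1)
    obtain ⟨⟨a, b⟩, m, hm, n, hn, h, hh, hp⟩ := g
    have hab : (a, b) = (m * h, n * h) := hp
    have hne : m ≠ n := by
      intro hmn
      apply hgH
      show a = b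
      have := congrArg Prod.fst hab
      have h2 := congrArg Prod.snd hab
      simp only at this h2
      rw [this, h2, hmn]
    have hmn1 : (m * n⁻¹, (1 : Γ)) ∈ Lc := by
      have h1 : (m * h, n * h) ∈ Lc := by
        have := hsub _ hgL
        simpa [hab] using this
      have h2 := Lc.mul_mem (Lc.mul_mem h1 (Lc.inv_mem (hdiag h hh)))
        (Lc.inv_mem (hdiagW n (hleN hn)))
      simpa using h2
    let D : Subgroup Γ := (Lc.comap (MonoidHom.inl Γ Γ)) ⊓ (M ⊔ N)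
    have hD1 : D ≠ ⊥ := by
      intro hD
      have : m * n⁻¹ ∈ D := ⟨hmn1, (M ⊔ N).mul_mem (hleM hm) ((M ⊔ N).inv_mem (hleN hn))⟩
      rw [hD, Subgroup.mem_bot] at this
      exact hne (mul_inv_eq_one.1 this)
    have hD2 : ∀ h ∈ H₁, ∀ d ∈ D, h * d * h⁻¹ ∈ D := by
      rintro h hh d ⟨hd1, hd2⟩
      refine ⟨?_, hWinv h hh d hd2⟩
      show (h * d * h⁻¹, (1 : Γ)) ∈ Lc
      have h1 : (d, (1 : Γ)) ∈ Lc := hd1
      have h2 := Lc.mul_mem (Lc.mul_mem (hdiag h hh) h1) (Lc.inv_mem (hdiag h hh))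
      simpa using h2
    have hD3 := hB D inf_le_right hD1 hD2
    have hD4 : ∀ w ∈ M ⊔ N, (w, (1 : Γ)) ∈ Lc := by
      intro w hw
      have h2 : closure (D : Set Γ) ⊆ (fun x : Γ => (x, (1 : Γ))) ⁻¹' (Lc : Set (Γ × Γ)) :=
        closure_minimal (fun d hd => hd.1) (hLc.preimage (by fun_prop))
      exact h2 (hD3 hw)
    rw [eq_top_iff]
    rintro x -
    have hx : (x : Γ × Γ) ∈ Lc := by
      obtain ⟨⟨a, b⟩, m, hm, n, hn, h, hh, hp⟩ := x
      have hp' : (a, b) = (m * h, n * h) := hp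
      show (a, b) ∈ Lc
      rw [hp']
      have h1 := Lc.mul_mem (Lc.mul_mem
        (hD4 (m * n⁻¹) ((M ⊔ N).mul_mem (hleM hm) ((M ⊔ N).inv_mem (hleN hn))))
        (hdiagW n (hleN hn))) (hdiag h hh)
      simpa using h1
    have hx2 : x ∈ closure (L : Set G) := by
      rw [closure_subtype]
      exact hx
    rwa [hL.closure_eq] at hx2
  · -- faithfulness
    ext x
    simp only [Set.mem_iInter, Set.mem_setOf_eq, Set.mem_singleton_iff]
    constructor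
    · intro hx
      obtain ⟨y, hy, hxy⟩ := hx 1
      have hx1 : x ∈ MonoidHom.eqLocus f s := by simpa [hxy] using hy
      obtain ⟨⟨a, b⟩, m, hm, n, hn, h, hh, hp⟩ := x
      have hp' : (a, b) = (m * h, n * h) := hp
      obtain ⟨ha, hb⟩ := Prod.mk.inj hp'
      have hab : a = b := hx1
      have hmn : m = n := by
        rw [ha, hb] at hab
        exact mul_right_cancel hab
      have hm1 : m = 1 := hMN' m hm (hmn ▸ hn)
      have hn1 : n = 1 := hmn ▸ hm1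
      have hah : a = h := by rw [ha, hm1, one_mul]
      have hbh : b = h := by rw [hb, hn1, one_mul]
      have hcomm : ∀ m' ∈ M, h * m' = m' * h := by
        intro m' hm'
        obtain ⟨y, hy, hxy⟩ := hx ⟨(m', 1), hmem1 hm'⟩
        have hy' : f y = s y := hy
        have e1 := congrArg f hxy
        have e2 := congrArg s hxy
        simp only [map_mul, map_inv] at e1 e2
        have e3 : a = m' * f y * m'⁻¹ := e1
        have e4 : b = 1 * s y * 1⁻¹ := e2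
        rw [one_mul, inv_one, mul_one, ← hy'] at e4
        rw [← e4, hah, hbh] at e3
        -- h = m' * h * m'⁻¹
        calc h * m' = (m' * h * m'⁻¹) * m' := by rw [← e3]
          _ = m' * h := by group
      have h1 : h = 1 := hf h hh hcomm
      apply Subtype.ext
      show (a, b) = (1, 1)
      rw [hah, hbh, h1]
    · rintro rfl g
      exact ⟨1, Subgroup.one_mem _, by simp⟩
  · have : ((s.ker : Subgroup G) : Set G) = s ⁻¹' {1} := by ext; simp [MonoidHom.mem_ker]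
    rw [this]
    exact isClosed_singleton.preimage hsc
  · infer_instance
  · intro h
    have : (⟨(m₀, 1), hmem1 hm₀⟩ : G) ∈ s.ker := by
      rw [MonoidHom.mem_ker]; rfl
    rw [h, Subgroup.mem_bot] at this
    exact hm₀1 (congrArg (fun z : G => z.1.1) this)
  · -- minimality
    intro L hL hLn hL0 hLle
    refine le_antisymm hLle ?_
    let D : Subgroup Γ := L.map f
    have hLs : ∀ x ∈ L, s x = 1 := fun x hx => (MonoidHom.mem_ker).1 (hLle hx)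
    have hD0 : D ≤ M := by
      rintro _ ⟨x, hx, rfl⟩
      exact hker x.1 x.2 (hLs x hx)
    have hD1 : D ≠ ⊥ := by
      intro hD
      apply hL0
      rw [eq_bot_iff]
      intro x hx
      have h1 : f x ∈ D := ⟨x, hx, rfl⟩
      rw [hD, Subgroup.mem_bot] at h1
      rw [Subgroup.mem_bot]
      exact Subtype.ext (Prod.ext h1 (hLs x hx))
    have hD2 : ∀ h ∈ H₁, ∀ d ∈ D, h * d * h⁻¹ ∈ D := by
      rintro h hh _ ⟨x, hx, rfl⟩
      refine ⟨⟨(h, h), hmem3 hh⟩ * x * ⟨(h, h), hmem3 hh⟩⁻¹, hLn.conj_mem x hx _, ?_⟩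
      rw [map_mul, map_mul, map_inv]
      rfl
    have hD3 := hB D (hD0.trans hleM) hD1 hD2
    intro x hx
    have hx1 : x.1.1 ∈ M := hker x.1 x.2 ((MonoidHom.mem_ker).1 hx)
    have hx2 : x.1.1 ∈ closure (D : Set Γ) := hD3 (hleM hx1)
    have hx3 : x.1 = (x.1.1, (1 : Γ)) := Prod.ext rfl ((MonoidHom.mem_ker).1 hx)
    have hx4 : x ∈ closure (L : Set G) := by
      rw [closure_subtype, hx3]
      have hcl : closure (D : Set Γ) ⊆
          (fun z : Γ => (z, (1 : Γ))) ⁻¹' closure (Subtype.val '' (L : Set G)) := by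
        refine closure_minimal ?_ (isClosed_closure.preimage (by fun_prop))
        rintro _ ⟨y, hy, rfl⟩
        refine subset_closure ⟨y, hy, ?_⟩
        exact Prod.ext rfl (hLs y hy)
      exact hcl hx2
    rwa [hL.closure_eq] at hx4
  · intro x hx y hy
    have hx1 : x.1.1 ∈ M := hker x.1 x.2 ((MonoidHom.mem_ker).1 hx)
    have hy1 : y.1.1 ∈ M := hker y.1 y.2 ((MonoidHom.mem_ker).1 hy)
    have hx2 : x.1.2 = 1 := (MonoidHom.mem_ker).1 hx
    have hy2 : y.1.2 = 1 := (MonoidHom.mem_ker).1 hy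
    apply Subtype.ext
    apply Prod.ext
    · exact hc _ (hleM hx1) _ (hleM hy1)
    · show x.1.2 * y.1.2 = y.1.2 * x.1.2
      rw [hx2, hy2]
  · have : ((f.ker : Subgroup G) : Set G) = f ⁻¹' {1} := by ext; simp [MonoidHom.mem_ker]
    rw [this]
    exact isClosed_singleton.preimage hfc
  · infer_instance
  · intro h
    have : (⟨(1, n₀), hmem2 hn₀⟩ : G) ∈ f.ker := by
      rw [MonoidHom.mem_ker]; rfl
    rw [h, Subgroup.mem_bot] at this
    exact hn₀1 (congrArg (fun z : G => z.1.2) this)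
  · rw [eq_bot_iff]
    rintro x ⟨hx1, hx2⟩
    rw [Subgroup.mem_bot]
    exact Subtype.ext (Prod.ext ((MonoidHom.mem_ker).1 hx2) ((MonoidHom.mem_ker).1 hx1))

end Pool.Agent.Lib.MP_fae9ec_al
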