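import Pool.Agent.Lib.MP_fae9ec_al.PermTop

/-!
The concrete subgroups of `Equiv.Perm ℤ`.
-/

set_option autoImplicit false

namespace Pool.Agent.Lib.MP_fae9ec_al

open Topology Filter Equiv

attribute [local instance] permTop permTop_group permTop_t2

theorem period_mul {h : Perm ℤ} {n : ℕ} (hn : ∀ x, h (x + n) = h x + n) (x : ℤ) (k : ℤ) :
    h (x + n * k) = h x + n * k := by
  induction k using Int.induction_on with
  | zero => simp
  | succ i ih =>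
    have := hn (x + n * i)
    rw [mul_add, mul_one, ← add_assoc, this, ih]
    ring
  | pred i ih =>
    have := hn (x + n * (-i - 1))
    have e : x + (n : ℤ) * (-i - 1) + n = x + n * (-i) := by ring
    rw [e, ih] at this
    linarith

theorem iff_period_mul {P : ℤ → Prop} {n : ℕ} (hn : ∀ x, P (x + n) ↔ P x) (x : ℤ) (k : ℤ) :
    P (x + n * k) ↔ P x := by
  induction k using Int.induction_on with
  | zero => simp
  | succ i ih =>
    have := hn (x + n * i)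
    rw [mul_add, mul_one, ← add_assoc, this, ih]
  | pred i ih =>
    have := hn (x + n * (-i - 1))
    have e : x + (n : ℤ) * (-i - 1) + n = x + n * (-i) := by ring
    rw [e, ih] at this
    exact this.symm

/-- odd permutations commuting with some translation -/
def H₁ : Subgroup (Perm ℤ) where
  carrier := {h | (∀ x, h (-x) = -h x) ∧ ∃ n : ℕ, 0 < n ∧ ∀ x, h (x + n) = h x + n}
  mul_mem' := by
    rintro a b ⟨ha, n, hn0, hn⟩ ⟨hb, m, hm0, hm⟩
    refine ⟨fun x => by simp [ha, hb], n * m, Nat.mul_pos hn0 hm0, fun x => ?_⟩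
    have h1 := period_mul hm x n
    have h2 := period_mul hn (b x) m
    simp only [Perm.coe_mul, Function.comp_apply, Nat.cast_mul]
    rw [mul_comm (n : ℤ) m, h1, mul_comm (m : ℤ) n, h2]
  one_mem' := ⟨fun x => rfl, 1, one_pos, fun x => rfl⟩
  inv_mem' := by
    rintro a ⟨ha, n, hn0, hn⟩
    refine ⟨fun x => ?_, n, hn0, fun x => ?_⟩
    · rw [Perm.inv_eq_iff_eq, ha]; simp
    · rw [Perm.inv_eq_iff_eq, hn]; simp

/-- odd permutations with `w x = x ∨ w x = -x` -/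
def W₀ : Subgroup (Perm ℤ) where
  carrier := {w | (∀ x, w (-x) = -w x) ∧ ∀ x, w x = x ∨ w x = -x}
  mul_mem' := by
    rintro a b ⟨ha, ha'⟩ ⟨hb, hb'⟩
    refine ⟨fun x => by simp [ha, hb], fun x => ?_⟩
    simp only [Perm.coe_mul, Function.comp_apply]
    rcases hb' x with h | h <;> rw [h]
    · exact ha' x
    · rw [ha]; rcases ha' x with h | h <;> rw [h] <;> simp
  one_mem' := ⟨fun x => rfl, fun x => Or.inl rfl⟩
  inv_mem' := by
    rintro a ⟨ha, ha'⟩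
    refine ⟨fun x => ?_, fun x => ?_⟩
    · rw [Perm.inv_eq_iff_eq, ha]; simp
    · rw [Perm.inv_eq_iff_eq, Perm.inv_eq_iff_eq, ha]
      rcases ha' x with h | h <;> rw [h] <;> simp

theorem W₀_invol {w : Perm ℤ} (hw : w ∈ W₀) (x : ℤ) : w (w x) = x := by
  rcases hw.2 x with h | h <;> rw [h]
  · exact h
  · rw [hw.1, h]; simp

theorem W₀_inv {w : Perm ℤ} (hw : w ∈ W₀) : w⁻¹ = w := by
  ext x
  rw [Perm.inv_eq_iff_eq, W₀_invol hw]

theorem W₀_comm {v w : Perm ℤ} (hv : v ∈ W₀) (hw : w ∈ W₀) : v * w = w * v := by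
  ext x
  simp only [Perm.coe_mul, Function.comp_apply]
  rcases hv.2 x with h | h <;> rcases hw.2 x with h' | h' <;> simp [h, h', hv.1, hw.1]

theorem W₀_mul_fix {v w : Perm ℤ} (hv : v ∈ W₀) (hw : w ∈ W₀) (x : ℤ) :
    (v * w) x = x ↔ (v x = x ↔ w x = x) := by
  simp only [Perm.coe_mul, Function.comp_apply]
  have h0v : v 0 = 0 := by have := hv.1 0; simp at this; omega
  have h0w : w 0 = 0 := by have := hw.1 0; simp at this; omega
  by_cases hx : x = 0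
  · subst hx; simp [h0v, h0w]
  rcases hv.2 x with h | h <;> rcases hw.2 x with h' | h' <;> simp [h, h', hv.1]

theorem W₀_conj {h w : Perm ℤ} (hh : ∀ x, h (-x) = -h x) (hw : w ∈ W₀) : h * w * h⁻¹ ∈ W₀ := by
  have hh' : ∀ x, h⁻¹ (-x) = -h⁻¹ x := fun x => by rw [Perm.inv_eq_iff_eq, hh]; simp
  refine ⟨fun x => ?_, fun x => ?_⟩
  · simp only [Perm.coe_mul, Function.comp_apply]
    rw [hh', hw.1, hh]
  · simp only [Perm.coe_mul, Function.comp_apply]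
    rcases hw.2 (h⁻¹ x) with e | e <;> rw [e]
    · left; simp
    · right; rw [hh]; simp

/-- finite support -/
def M₁ : Subgroup (Perm ℤ) where
  carrier := {w | w ∈ W₀ ∧ {x | w x ≠ x}.Finite}
  mul_mem' := by
    rintro a b ⟨ha, ha'⟩ ⟨hb, hb'⟩
    refine ⟨W₀.mul_mem ha hb, (ha'.union hb').subset ?_⟩
    intro x hx
    by_contra hcon
    simp only [Set.mem_union, Set.mem_ofPred_eq, not_or, not_not] at hcon
    exact hx (by simp [hcon.1, hcon.2])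
  one_mem' := ⟨W₀.one_mem, by simp⟩
  inv_mem' := by
    rintro a ⟨ha, ha'⟩
    refine ⟨W₀.inv_mem ha, ?_⟩
    rwa [W₀_inv ha]

/-- periodic support -/
def N₁ : Subgroup (Perm ℤ) where
  carrier := {w | w ∈ W₀ ∧ ∃ n : ℕ, 0 < n ∧ ∀ x, w (x + n) = x + n ↔ w x = x}
  mul_mem' := by
    rintro a b ⟨ha, n, hn0, hn⟩ ⟨hb, m, hm0, hm⟩
    refine ⟨W₀.mul_mem ha hb, n * m, Nat.mul_pos hn0 hm0, fun x => ?_⟩
    rw [W₀_mul_fix ha hb, W₀_mul_fix ha hb]
    have h1 := iff_period_mul (P := fun x => a x = x) hn x m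
    have h2 := iff_period_mul (P := fun x => b x = x) hm x n
    rw [mul_comm (m : ℤ)] at h2
    rw [Nat.cast_mul, h1, h2]
  one_mem' := ⟨W₀.one_mem, 1, one_pos, by simp⟩
  inv_mem' := by
    rintro a ⟨ha, ha'⟩
    refine ⟨W₀.inv_mem ha, ?_⟩
    rwa [W₀_inv ha]

theorem M₁_conj : ∀ h ∈ H₁, ∀ m ∈ M₁, h * m * h⁻¹ ∈ M₁ := by
  rintro h ⟨hh, -⟩ m ⟨hm, hm'⟩
  refine ⟨W₀_conj hh hm, (hm'.image h).subset ?_⟩
  intro x hx
  refine ⟨h⁻¹ x, ?_, by simp⟩
  intro hcon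
  apply hx
  show h (m (h⁻¹ x)) = x
  rw [hcon]
  simp

theorem N₁_conj : ∀ h ∈ H₁, ∀ m ∈ N₁, h * m * h⁻¹ ∈ N₁ := by
  rintro h hH m ⟨hm, k, hk0, hk⟩
  obtain ⟨hh', n, hn0, hn⟩ := H₁.inv_mem hH
  refine ⟨W₀_conj hH.1 hm, n * k, Nat.mul_pos hn0 hk0, fun x => ?_⟩
  have e1 : ∀ y, (h * m * h⁻¹) y = y ↔ m (h⁻¹ y) = h⁻¹ y := by
    intro y
    simp only [Perm.coe_mul, Function.comp_apply]
    rw [eq_comm, ← Perm.inv_eq_iff_eq, eq_comm]
  rw [e1, e1]
  have h1 := period_mul hn x k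
  have h2 := iff_period_mul (P := fun x => m x = x) hk (h⁻¹ x) n
  rw [Nat.cast_mul, h1, mul_comm (n : ℤ), h2]

theorem M₁_le : M₁ ≤ W₀ := fun _ h => h.1
theorem N₁_le : N₁ ≤ W₀ := fun _ h => h.1
theorem sup_le_W₀ : M₁ ⊔ N₁ ≤ W₀ := sup_le M₁_le N₁_le

theorem M₁_inf_N₁ : M₁ ⊓ N₁ = ⊥ := by
  rw [eq_bot_iff]
  rintro w ⟨⟨hw, hfin⟩, ⟨-, n, hn0, hn⟩⟩
  rw [Subgroup.mem_bot]
  by_contra hne
  obtain ⟨x, hx⟩ : ∃ x, w x ≠ x := by
    by_contra hcon
    push Not at hcon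
    exact hne (Perm.ext hcon)
  have hinj : Function.Injective (fun k : ℕ => x + (n : ℤ) * k) := by
    intro a b hab
    simpa [hn0.ne'] using hab
  have hsub : Set.range (fun k : ℕ => x + (n : ℤ) * k) ⊆ {x | w x ≠ x} := by
    rintro _ ⟨k, rfl⟩
    have := iff_period_mul (P := fun x => w x = x) hn x k
    exact fun hcon => hx (this.1 hcon)
  exact (Set.infinite_range_of_injective hinj) (hfin.subset hsub)

theorem H₁_W₀ {h : Perm ℤ} (hh : h ∈ H₁) (hw : h ∈ W₀) : h = 1 := by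
  obtain ⟨h1, n, hn0, hn⟩ := hh
  ext x
  rw [Perm.one_apply]
  have hn' : (0 : ℤ) < n := by exact_mod_cast hn0
  rcases hw.2 x with e | e
  · exact e
  · have e2 := hn x
    rcases hw.2 (x + n) with e3 | e3 <;> omega

theorem H₁_inf_sup : H₁ ⊓ (M₁ ⊔ N₁) = ⊥ := by
  rw [eq_bot_iff]
  rintro h ⟨h1, h2⟩
  rw [Subgroup.mem_bot]
  exact H₁_W₀ h1 (sup_le_W₀ h2)

/-- the auxiliary subgroup used to see that elements of `M ⊔ N` fix a nonzero integer -/
def Y : Subgroup (Perm ℤ) where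
  carrier := {w | w ∈ W₀ ∧ ∃ p : ℕ, 0 < p ∧ ∃ K : ℕ, ∀ k : ℕ, K ≤ k → w (p * k) = p * k}
  mul_mem' := by
    rintro a b ⟨ha, p, hp0, K, hK⟩ ⟨hb, q, hq0, L, hL⟩
    refine ⟨W₀.mul_mem ha hb, p * q, Nat.mul_pos hp0 hq0, max K L, fun k hk => ?_⟩
    have h1 : b ((q : ℤ) * ((p * k : ℕ) : ℤ)) = q * ((p * k : ℕ) : ℤ) :=
      hL (p * k) (by
        have := Nat.mul_le_mul hp0 (le_refl k)
        have h3 := le_max_right K L
        omega)
    have h2 : a ((p : ℤ) * ((q * k : ℕ) : ℤ)) = p * ((q * k : ℕ) : ℤ) :=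
      hK (q * k) (by
        have := Nat.mul_le_mul hq0 (le_refl k)
        have h3 := le_max_left K L
        omega)
    have e1 : ((p * q : ℕ) : ℤ) * k = (q : ℤ) * ((p * k : ℕ) : ℤ) := by push_cast; ring
    have e2 : (q : ℤ) * ((p * k : ℕ) : ℤ) = (p : ℤ) * ((q * k : ℕ) : ℤ) := by push_cast; ring
    rw [Perm.mul_apply, e1, h1, e2, h2]
  one_mem' := ⟨W₀.one_mem, 1, one_pos, 0, fun k _ => rfl⟩
  inv_mem' := by
    rintro a ⟨ha, ha'⟩
    refine ⟨W₀.inv_mem ha, ?_⟩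
    rwa [W₀_inv ha]

theorem zero_fix {w : Perm ℤ} (hw : w ∈ W₀) : w 0 = 0 := by
  have := hw.1 0
  simp at this
  omega

theorem sup_le_Y : M₁ ⊔ N₁ ≤ Y := by
  refine sup_le ?_ ?_
  · rintro w ⟨hw, hfin⟩
    refine ⟨hw, 1, one_pos, ?_⟩
    obtain ⟨b, hb⟩ := (hfin.image (fun x : ℤ => x)).bddAbove
    refine ⟨b.toNat + 1, fun k hk => ?_⟩
    by_contra hcon
    have : ((1 : ℕ) : ℤ) * k ≤ b := hb ⟨_, hcon, rfl⟩
    push_cast at this
    omega
  · rintro w ⟨hw, n, hn0, hn⟩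
    refine ⟨hw, n, hn0, 0, fun k _ => ?_⟩
    have := iff_period_mul (P := fun x => w x = x) hn 0 k
    rw [zero_add] at this
    exact this.2 (zero_fix hw)

theorem exists_fix {w : Perm ℤ} (hw : w ∈ M₁ ⊔ N₁) : ∃ y : ℤ, y ≠ 0 ∧ w y = y := by
  obtain ⟨-, p, hp0, K, hK⟩ := sup_le_Y hw
  refine ⟨p * ((K + 1 : ℕ) : ℤ), ?_, hK (K + 1) (by omega)⟩
  have : (p : ℤ) ≠ 0 := by exact_mod_cast hp0.ne'
  positivity

end Pool.Agent.Lib.MP_fae9ec_al
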