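import Pool.Agent.Lib.MP_fae9ec_al.Concrete

/-!
Density statements (A) and (B) for the concrete subgroups.
-/

set_option autoImplicit false

namespace Pool.Agent.Lib.MP_fae9ec_al

open Topology Filter Equiv

attribute [local instance] permTop permTop_group permTop_t2

/-- balanced remainder modulo `2 B + 1` -/
def rem (B : ℕ) (x : ℤ) : ℤ := (x + B) % (2 * B + 1) - B

theorem rem_abs (B : ℕ) (x : ℤ) : |rem B x| ≤ B := by
  have h1 := Int.emod_nonneg (x + B) (b := 2 * B + 1) (by omega)
  have h2 := Int.emod_lt_of_pos (x + B) (b := 2 * B + 1) (by omega)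
  rw [abs_le]
  unfold rem
  constructor <;> omega

theorem rem_spec (B : ℕ) (x : ℤ) : ∃ k, x = rem B x + (2 * B + 1) * k := by
  refine ⟨(x + B) / (2 * B + 1), ?_⟩
  have := Int.emod_add_mul_ediv (x + B) (2 * B + 1)
  unfold rem
  linarith

theorem rem_unique (B : ℕ) {s : ℤ} (hs : |s| ≤ B) (k : ℤ) : rem B (s + (2 * B + 1) * k) = s := by
  unfold rem
  rw [abs_le] at hs
  have e : s + (2 * B + 1) * k + B = (s + B) + (2 * B + 1) * k := by ring
  rw [e, Int.add_mul_emod_self_left, Int.emod_eq_of_lt (by omega) (by omega)]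
  ring

theorem rem_self (B : ℕ) {s : ℤ} (hs : |s| ≤ B) : rem B s = s := by
  have := rem_unique B hs 0
  simpa using this

theorem rem_neg (B : ℕ) (x : ℤ) : rem B (-x) = -rem B x := by
  obtain ⟨k, hk⟩ := rem_spec B x
  have h1 : |(-rem B x)| ≤ B := by rw [abs_neg]; exact rem_abs B x
  have := rem_unique B h1 (-k)
  rw [← this]
  congr 1
  linarith

/-- extend a permutation of `[-B, B]` periodically -/
def ext (σ : Perm ℤ) (B : ℕ) (hB : ∀ x, |σ x| ≤ B ↔ |x| ≤ B) : Perm ℤ where
  toFun x := x - rem B x + σ (rem B x)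
  invFun x := x - rem B x + σ.symm (rem B x)
  left_inv x := by
    obtain ⟨k, hk⟩ := rem_spec B x
    have h1 : |σ (rem B x)| ≤ B := (hB _).2 (rem_abs B x)
    have h2 : rem B (x - rem B x + σ (rem B x)) = σ (rem B x) := by
      have := rem_unique B h1 k
      rw [← this]
      congr 1
      linarith
    simp only [h2, symm_apply_apply]
    ring
  right_inv x := by
    obtain ⟨k, hk⟩ := rem_spec B x
    have h1 : |σ.symm (rem B x)| ≤ B := by
      rw [← hB]; simpa using rem_abs B x
    have h2 : rem B (x - rem B x + σ.symm (rem B x)) = σ.symm (rem B x) := by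
      have := rem_unique B h1 k
      rw [← this]
      congr 1
      linarith
    simp only [h2, apply_symm_apply]
    ring

theorem exists_H₁_agree (σ : Perm ℤ) (hodd : ∀ x, σ (-x) = -σ x) (B : ℕ)
    (hB : ∀ x, |σ x| ≤ B ↔ |x| ≤ B) : ∃ h ∈ H₁, ∀ x : ℤ, |x| ≤ B → h x = σ x := by
  refine ⟨ext σ B hB, ⟨fun x => ?_, 2 * B + 1, by omega, fun x => ?_⟩, fun x hx => ?_⟩
  · show -x - rem B (-x) + σ (rem B (-x)) = -(x - rem B x + σ (rem B x))
    rw [rem_neg, hodd]; ring
  · show x + _ - rem B (x + _) + σ (rem B (x + _)) = x - rem B x + σ (rem B x) + _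
    have : rem B (x + ((2 * B + 1 : ℕ) : ℤ)) = rem B x := by
      obtain ⟨k, hk⟩ := rem_spec B x
      have := rem_unique B (rem_abs B x) (k + 1)
      rw [← this]
      congr 1
      push_cast
      linarith
    rw [this]; ring
  · show x - rem B x + σ (rem B x) = σ x
    rw [rem_self B hx]; ring

/-- (A) -/
theorem W₀_subset_closure : (W₀ : Set (Perm ℤ)) ⊆ closure (H₁ : Set (Perm ℤ)) := by
  intro w hw
  rw [mem_closure_perm]
  intro B
  exact exists_H₁_agree w hw.1 B (fun x => by rcases hw.2 x with h | h <;> rw [h]; rw [abs_neg])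

/-- sign flip of `a` -/
def flip (a : ℤ) : Perm ℤ := swap a (-a)

theorem flip_apply (a x : ℤ) : flip a x = if x = a then -a else if x = -a then a else x := by
  unfold flip; exact swap_apply_def _ _ _

theorem flip_mem (a : ℤ) : flip a ∈ W₀ := by
  refine ⟨fun x => ?_, fun x => ?_⟩
  · rw [flip_apply, flip_apply]; split_ifs <;> omega
  · rw [flip_apply]; split_ifs <;> omega

theorem flip_mem_M₁ (a : ℤ) : flip a ∈ M₁ := by
  refine ⟨flip_mem a, (Set.toFinite ({a, -a} : Set ℤ)).subset ?_⟩
  intro x hx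
  by_contra hcon
  simp only [Set.mem_insert_iff, Set.mem_singleton_iff, not_or] at hcon
  apply hx
  rw [flip_apply, if_neg hcon.1, if_neg hcon.2]

/-- odd swap -/
def os (a b : ℤ) : Perm ℤ := swap a b * swap (-a) (-b)

theorem os_apply {a b : ℤ} (ha : a ≠ 0) (hb : b ≠ 0) (hab : a ≠ b) (hab' : a ≠ -b) (x : ℤ) :
    os a b x = if x = a then b else if x = b then a else if x = -a then -b
      else if x = -b then -a else x := by
  unfold os
  rw [Perm.mul_apply, swap_apply_def, swap_apply_def]
  split_ifs <;> omega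

theorem os_odd {a b : ℤ} (ha : a ≠ 0) (hb : b ≠ 0) (hab : a ≠ b) (hab' : a ≠ -b) (x : ℤ) :
    os a b (-x) = - os a b x := by
  rw [os_apply ha hb hab hab', os_apply ha hb hab hab']
  split_ifs <;> omega

theorem os_mem_closure {a b : ℤ} (ha : a ≠ 0) (hb : b ≠ 0) (hab : a ≠ b) (hab' : a ≠ -b) :
    os a b ∈ closure (H₁ : Set (Perm ℤ)) := by
  rw [mem_closure_perm]
  intro B
  obtain ⟨C, hBC, haC, hbC⟩ : ∃ C : ℕ, B ≤ C ∧ |a| ≤ C ∧ |b| ≤ C := by
    refine ⟨B + a.natAbs + b.natAbs, by omega, ?_, ?_⟩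
    · push_cast
      have := abs_nonneg b
      omega
    · push_cast
      have := abs_nonneg a
      omega
  obtain ⟨h, hh, hx⟩ := exists_H₁_agree (os a b) (os_odd ha hb hab hab') C (fun x => by
      rw [os_apply ha hb hab hab']
      rw [abs_le] at *
      rw [abs_le]
      split_ifs <;> omega)
  exact ⟨h, hh, fun x hxB => hx x (hxB.trans (by exact_mod_cast hBC))⟩

theorem closure_conj {D : Set (Perm ℤ)} (hD : ∀ h ∈ H₁, ∀ d ∈ D, h * d * h⁻¹ ∈ D)
    {g d : Perm ℤ} (hg : g ∈ closure (H₁ : Set (Perm ℤ))) (hd : d ∈ closure D) :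
    g * d * g⁻¹ ∈ closure D := by
  have hc : Continuous (fun p : Perm ℤ × Perm ℤ => p.1 * p.2 * p.1⁻¹) := by fun_prop
  exact map_mem_closure₂ (f := fun g d => g * d * g⁻¹) hc hg hd (fun a ha b hb => hD a ha b hb)

/-- the key identity -/
theorem flip_mul_flip {w : Perm ℤ} (hw : w ∈ W₀) {x y : ℤ} (hx0 : x ≠ 0) (hy0 : y ≠ 0)
    (hx : w x = -x) (hy : w y = y) :
    w * (os x y * w * (os x y)⁻¹) = flip x * flip y := by
  have hxy : x ≠ y := by rintro rfl; omega
  have hxy' : x ≠ -y := by
    rintro rfl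
    rw [hw.1, hy] at hx
    omega
  have hinv : (os x y)⁻¹ = os x y := by
    ext z
    rw [Perm.inv_eq_iff_eq, os_apply hx0 hy0 hxy hxy', os_apply hx0 hy0 hxy hxy']
    split_ifs <;> omega
  rw [hinv]
  ext z
  have hx' : w (-x) = x := by rw [hw.1, hx]; simp
  have hy' : w (-y) = -y := by rw [hw.1, hy]
  simp only [Perm.mul_apply]
  by_cases h1 : z = x
  · subst h1
    rw [os_apply hx0 hy0 hxy hxy' z, if_pos rfl, hy, os_apply hx0 hy0 hxy hxy' y, if_neg (Ne.symm hxy),
      if_pos rfl, hx, flip_apply, flip_apply]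
    split_ifs <;> omega
  by_cases h2 : z = y
  · subst h2
    rw [os_apply hx0 hy0 hxy hxy' z, if_neg (Ne.symm hxy), if_pos rfl, hx, os_odd hx0 hy0 hxy hxy',
      os_apply hx0 hy0 hxy hxy' x, if_pos rfl, hy', flip_apply, flip_apply]
    split_ifs <;> omega
  by_cases h3 : z = -x
  · subst h3
    rw [os_odd hx0 hy0 hxy hxy', os_apply hx0 hy0 hxy hxy' x, if_pos rfl, hy',
      os_odd hx0 hy0 hxy hxy', os_apply hx0 hy0 hxy hxy' y, if_neg (Ne.symm hxy),
      if_pos rfl, hx', flip_apply, flip_apply]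
    split_ifs <;> omega
  by_cases h4 : z = -y
  · subst h4
    rw [os_odd hx0 hy0 hxy hxy', os_apply hx0 hy0 hxy hxy' y, if_neg (Ne.symm hxy), if_pos rfl,
      hx', os_apply hx0 hy0 hxy hxy' x, if_pos rfl, hy, flip_apply, flip_apply]
    split_ifs <;> omega
  have e1 : os x y z = z := by
    rw [os_apply hx0 hy0 hxy hxy' z, if_neg h1, if_neg h2, if_neg h3, if_neg h4]
  have e2 : os x y (w z) = w z := by
    rcases hw.2 z with e | e <;> rw [e]
    · exact e1
    · rw [os_odd hx0 hy0 hxy hxy', e1]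
  rw [e1, e2, W₀_invol hw, flip_apply, flip_apply]
  split_ifs <;> omega

theorem conj_flip {s : Perm ℤ} (hs : ∀ x, s (-x) = -s x) (a : ℤ) :
    s * flip a * s⁻¹ = flip (s a) := by
  ext x
  simp only [Perm.mul_apply]
  obtain ⟨y, rfl⟩ := s.surjective x
  have h1 : s⁻¹ (s y) = y := by simp
  rw [h1, flip_apply, flip_apply]
  by_cases h2 : y = a
  · subst h2; simp [hs]
  · have h3 : s y ≠ s a := fun h => h2 (s.injective h)
    rw [if_neg h2, if_neg h3]
    by_cases h4 : y = -a
    · subst h4; simp [hs]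
    · have h5 : s y ≠ -s a := fun h => h4 (s.injective (by rw [hs]; exact h))
      rw [if_neg h4, if_neg h5]

/-- (B) -/
theorem W₀_subset_closure_of_invariant (D : Subgroup (Perm ℤ)) (hD : D ≤ M₁ ⊔ N₁) (hD0 : D ≠ ⊥)
    (hDc : ∀ h ∈ H₁, ∀ d ∈ D, h * d * h⁻¹ ∈ D) :
    (W₀ : Set (Perm ℤ)) ⊆ closure (D : Set (Perm ℤ)) := by
  obtain ⟨⟨w, hwD⟩, hw1⟩ := Subgroup.ne_bot_iff_exists_ne_one.1 hD0
  have hw1' : w ≠ 1 := fun h => hw1 (Subtype.ext h)
  have hw : w ∈ W₀ := sup_le_W₀ (hD hwD)
  obtain ⟨y, hy0, hy⟩ := exists_fix (hD hwD)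
  obtain ⟨x, hx⟩ : ∃ x, w x ≠ x := by
    by_contra hcon
    push Not at hcon
    exact hw1' (Perm.ext hcon)
  have hx' : w x = -x := (hw.2 x).resolve_left hx
  have hx0 : x ≠ 0 := by
    rintro rfl
    exact hx (zero_fix hw)
  let E : Subgroup (Perm ℤ) := D.topologicalClosure
  have hEcl : (E : Set (Perm ℤ)) = closure (D : Set (Perm ℤ)) := rfl
  have hEconj : ∀ g ∈ closure (H₁ : Set (Perm ℤ)), ∀ e ∈ E, g * e * g⁻¹ ∈ E :=
    fun g hg e he => closure_conj hDc hg he
  have hDE : D ≤ E := D.le_topologicalClosure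
  have hxy : x ≠ y := by rintro rfl; exact hx hy
  have hxy' : x ≠ -y := by
    rintro rfl
    rw [hw.1, hy] at hx
    exact hx rfl
  -- step 1
  have s1 : flip x * flip y ∈ E := by
    rw [← flip_mul_flip hw hx0 hy0 hx' hy]
    exact E.mul_mem (hDE hwD) (hEconj _ (os_mem_closure hx0 hy0 hxy hxy') _ (hDE hwD))
  -- step 2
  have s2 : ∀ z : ℤ, |x| + |y| < z → flip x * flip z ∈ E := by
    intro z hz
    have hz0 : z ≠ 0 := by
      have := abs_nonneg x
      have := abs_nonneg y
      omega
    have hyz : y ≠ z := by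
      rintro rfl
      have := abs_nonneg x
      have := le_abs_self y
      omega
    have hyz' : y ≠ -z := by
      have := abs_nonneg x
      have := neg_abs_le y
      omega
    have h1 := hEconj _ (os_mem_closure hy0 hz0 hyz hyz') _ s1
    have h2 : os y z * (flip x * flip y) * (os y z)⁻¹ =
        (os y z * flip x * (os y z)⁻¹) * (os y z * flip y * (os y z)⁻¹) := by group
    rw [h2, conj_flip (os_odd hy0 hz0 hyz hyz'), conj_flip (os_odd hy0 hz0 hyz hyz'),
      os_apply hy0 hz0 hyz hyz' y, if_pos rfl, os_apply hy0 hz0 hyz hyz' x, if_neg hxy,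
      if_neg (by
        have := abs_nonneg y
        have := le_abs_self x
        omega), if_neg (by omega), if_neg (by
        have := abs_nonneg y
        have := neg_abs_le x
        omega)] at h1
    exact h1
  -- step 3
  have s3 : flip x ∈ E := by
    have hE' : closure (E : Set (Perm ℤ)) = E := (Subgroup.isClosed_topologicalClosure D).closure_eq
    rw [← SetLike.mem_coe, ← hE', mem_closure_perm]
    intro B
    refine ⟨flip x * flip (|x| + |y| + B + 1), s2 _ (by omega), fun z hz => ?_⟩
    rw [Perm.mul_apply]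
    congr 1
    rw [abs_le] at hz
    have := abs_nonneg x
    have := abs_nonneg y
    rw [flip_apply, if_neg (by omega), if_neg (by omega)]
  -- step 4
  have s4 : ∀ z, flip z ∈ E := by
    intro z
    by_cases hz0 : z = 0
    · subst hz0
      have : flip 0 = 1 := by ext t; rw [flip_apply]; split_ifs <;> simp_all
      rw [this]; exact E.one_mem
    by_cases hxz : x = z
    · rwa [← hxz]
    by_cases hxz' : x = -z
    · have : flip z = flip x := by
        ext t; rw [flip_apply, flip_apply, hxz']; split_ifs <;> omega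
      rwa [this]
    have h1 := hEconj _ (os_mem_closure hx0 hz0 hxz hxz') _ s3
    rwa [conj_flip (os_odd hx0 hz0 hxz hxz'), os_apply hx0 hz0 hxz hxz' x, if_pos rfl] at h1
  -- step 5
  have s5 : ∀ v ∈ W₀, ∀ B : ℕ, ∃ e ∈ E, ∀ z : ℤ, (|z| ≤ B → e z = v z) ∧ (¬ |z| ≤ B → e z = z) := by
    intro v hv B
    induction B with
    | zero =>
      refine ⟨1, E.one_mem, fun z => ⟨fun hz => ?_, fun _ => rfl⟩⟩
      have : z = 0 := by simpa using hz
      rw [this, zero_fix hv]; rfl
    | succ B ih =>
      obtain ⟨e, he, hez⟩ := ih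
      rcases hv.2 (B + 1) with h | h
      · refine ⟨e, he, fun z => ⟨fun hz => ?_, fun hz => ?_⟩⟩
        · by_cases hzB : |z| ≤ B
          · exact (hez z).1 hzB
          · rw [(hez z).2 hzB]
            have hz2 : z = B + 1 ∨ z = -(B + 1) := by
              push_cast at hz
              rw [abs_le] at hz hzB
              omega
            rcases hz2 with rfl | rfl
            · exact h.symm
            · rw [hv.1, h]
        · exact (hez z).2 (fun h => hz (h.trans (by push_cast; omega)))
      · refine ⟨e * flip (B + 1), E.mul_mem he (s4 _), fun z => ⟨fun hz => ?_, fun hz => ?_⟩⟩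
        · rw [Perm.mul_apply]
          by_cases hzB : |z| ≤ B
          · have : flip (B + 1) z = z := by
              rw [abs_le] at hzB
              rw [flip_apply, if_neg (by omega), if_neg (by omega)]
            rw [this]
            exact (hez z).1 hzB
          · have hz2 : z = B + 1 ∨ z = -(B + 1) := by
              push_cast at hz
              rw [abs_le] at hz hzB
              omega
            rcases hz2 with rfl | rfl
            · rw [flip_apply, if_pos rfl, h]
              refine (hez _).2 ?_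
              rw [abs_neg]; exact hzB
            · rw [flip_apply, if_neg (by omega), if_pos rfl, hv.1, h, neg_neg]
              refine (hez _).2 ?_
              rwa [abs_neg] at hzB
        · rw [Perm.mul_apply]
          have hzB : ¬ |z| ≤ B := fun h => hz (h.trans (by push_cast; omega))
          have : flip (B + 1) z = z := by
            push_cast at hz
            rw [abs_le] at hz
            rw [flip_apply, if_neg (by omega), if_neg (by omega)]
          rw [this]
          exact (hez z).2 hzB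
  intro v hv
  have hE' : closure (E : Set (Perm ℤ)) = E := (Subgroup.isClosed_topologicalClosure D).closure_eq
  rw [← hEcl, ← hE', mem_closure_perm]
  intro B
  obtain ⟨e, he, hez⟩ := s5 v hv B
  exact ⟨e, he, fun z hz => (hez z).1 hz⟩

end Pool.Agent.Lib.MP_fae9ec_al
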