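import Mathlib

/-!
The topology of pointwise convergence on the permutation group of a discrete space.
-/

set_option autoImplicit false

namespace Pool.Agent.Lib.MP_fae9ec_al

open Topology Filter

/-- topology of pointwise convergence on `Equiv.Perm ℤ` (with `ℤ` discrete). -/
@[reducible] def permTop : TopologicalSpace (Equiv.Perm ℤ) :=
  TopologicalSpace.induced (fun g : Equiv.Perm ℤ => (g : ℤ → ℤ)) inferInstance

attribute [local instance] permTop

theorem continuous_eval (x : ℤ) : Continuous (fun g : Equiv.Perm ℤ => g x) :=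
  (continuous_apply x).comp continuous_induced_dom

theorem eventually_eval (g : Equiv.Perm ℤ) (x : ℤ) : ∀ᶠ h in 𝓝 g, h x = g x := by
  have h1 : IsOpen {h : Equiv.Perm ℤ | h x = g x} :=
    (isOpen_discrete ({g x} : Set ℤ)).preimage (continuous_eval x)
  exact h1.mem_nhds rfl

theorem permTop_group : IsTopologicalGroup (Equiv.Perm ℤ) where
  continuous_mul := by
    refine continuous_induced_rng.2 (continuous_pi fun x => ?_)
    rw [continuous_iff_continuousAt]
    rintro ⟨g, h⟩
    refine (continuousAt_const (y := g (h x))).congr ?_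
    have h1 : ∀ᶠ p : Equiv.Perm ℤ × Equiv.Perm ℤ in 𝓝 (g, h), p.2 x = h x :=
      (continuous_snd.tendsto (g, h)).eventually (eventually_eval h x)
    have h2 : ∀ᶠ p : Equiv.Perm ℤ × Equiv.Perm ℤ in 𝓝 (g, h), p.1 (h x) = g (h x) :=
      (continuous_fst.tendsto (g, h)).eventually (eventually_eval g (h x))
    filter_upwards [h1, h2] with p hp1 hp2
    simp [hp1, hp2]
  continuous_inv := by
    refine continuous_induced_rng.2 (continuous_pi fun x => ?_)
    rw [continuous_iff_continuousAt]
    intro g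
    refine (continuousAt_const (y := g⁻¹ x)).congr ?_
    filter_upwards [eventually_eval g (g⁻¹ x)] with h hh
    have : h (g⁻¹ x) = x := by simpa using hh
    show g⁻¹ x = h⁻¹ x
    rw [Equiv.Perm.eq_inv_iff_eq, this]

theorem permTop_t2 : T2Space (Equiv.Perm ℤ) := by
  refine T2Space.of_injective_continuous (f := fun g : Equiv.Perm ℤ => (g : ℤ → ℤ)) ?_
    continuous_induced_dom
  exact DFunLike.coe_injective

theorem permTop_second : SecondCountableTopology (Equiv.Perm ℤ) :=
  TopologicalSpace.secondCountableTopology_induced _ _ _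

theorem mem_closure_perm {S : Set (Equiv.Perm ℤ)} {g : Equiv.Perm ℤ} :
    g ∈ closure S ↔ ∀ B : ℕ, ∃ s ∈ S, ∀ x : ℤ, |x| ≤ B → s x = g x := by
  constructor
  · intro hg B
    have h1 : ∀ᶠ h in 𝓝 g, ∀ x ∈ Finset.Icc (-(B : ℤ)) B, h x = g x := by
      rw [Filter.eventually_all_finset]
      exact fun x _ => eventually_eval g x
    obtain ⟨s, hs1, hs2⟩ := (mem_closure_iff_nhds.1 hg _ h1)
    exact ⟨s, hs2, fun x hx => hs1 x (by rw [Finset.mem_Icc]; exact abs_le.1 hx)⟩
  · intro h
    rw [mem_closure_iff_nhds]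
    intro t ht
    rw [nhds_induced, Filter.mem_comap] at ht
    obtain ⟨u, hu, hut⟩ := ht
    rw [nhds_pi, Filter.mem_pi] at hu
    obtain ⟨I, hI, v, hv, hvu⟩ := hu
    obtain ⟨B, hB⟩ : ∃ B : ℕ, ∀ x ∈ I, |x| ≤ (B : ℤ) := by
      obtain ⟨b, hb⟩ := (hI.image (fun x : ℤ => |x|)).bddAbove
      refine ⟨b.toNat, fun x hx => ?_⟩
      have : |x| ≤ b := hb ⟨x, hx, rfl⟩
      omega
    obtain ⟨s, hs, hsx⟩ := h B
    refine ⟨s, hut (hvu ?_), hs⟩
    intro x hx
    show s x ∈ v x
    rw [hsx x (hB x hx)]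
    exact mem_of_mem_nhds (hv x)

end Pool.Agent.Lib.MP_fae9ec_al
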